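import Pool.Agent.Helper93.UX.Defs
import Pool.Agent.Helper56.UG.Cv

/-!
# NS: the deviations of the counts of the zeros in long windows, outside a small exceptional set
-/

set_option autoImplicit false
open MeasureTheory Set Filter Topology
open Pool.Agent.Helper57.Zeta Pool.Agent.Helper57.LH Pool.Agent.Helper57.ED
open Pool.Agent.Helper93.UG (zc sp)
open Pool.Agent.Helper56.UG (zc_mono zc_union)

namespace Pool.Agent.Helper53.NS

lemma markov {f : ℝ → ℝ} {a b ε I : ℝ} (hf0 : ∀ x, 0 ≤ f x) (hf : IntegrableOn f (Icc a b))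
    (hI : ∫ t in Icc a b, f t ≤ I) (hε : 0 < ε) :
    volume ({x | ε ≤ f x} ∩ Icc a b) ≤ ENNReal.ofReal (I / ε) := by
  have h1 := mul_meas_ge_le_integral_of_nonneg (μ := volume.restrict (Icc a b)) (Eventually.of_forall hf0) hf ε
  have h2 : (volume.restrict (Icc a b)) {x | ε ≤ f x} = volume ({x | ε ≤ f x} ∩ Icc a b) :=
    Measure.restrict_apply' measurableSet_Icc
  have h3 : volume ({x | ε ≤ f x} ∩ Icc a b) ≠ ⊤ := by
    refine ne_top_of_le_ne_top ?_ (measure_mono inter_subset_right)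
    rw [Real.volume_Icc]
    exact ENNReal.ofReal_ne_top
  have h4 : ε * (volume ({x | ε ≤ f x} ∩ Icc a b)).toReal ≤ I := by
    have h5 : (volume.restrict (Icc a b)).real {x | ε ≤ f x} = (volume ({x | ε ≤ f x} ∩ Icc a b)).toReal := by
      rw [Measure.real, h2]
    rw [← h5]
    exact h1.trans hI
  rw [← ENNReal.ofReal_toReal h3]
  refine ENNReal.ofReal_le_ofReal ?_
  rw [le_div_iff₀ hε]
  linarith

lemma zc_add {a b c : ℝ} (h1 : a ≤ b) (h2 : b ≤ c) : zc (Ico a c) = zc (Ico a b) + zc (Ico b c) := by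
  rw [← Ico_union_Ico_eq_Ico h1 h2, zc_union (a := a) (b := c)]
  · intro x hx; exact ⟨hx.1, hx.2.le.trans h2⟩
  · intro x hx; exact ⟨h1.trans hx.1, hx.2.le⟩
  · rw [Set.disjoint_left]
    intro x hx hx2
    exact absurd hx.2 (not_lt.2 hx2.1)

/-- the deviation of the count in the window from `i` to `i + j` spacings after `t` -/
noncomputable def dv (T : ℝ) (i : ℤ) (j : ℕ) (t : ℝ) : ℝ :=
  |(zc (Ico (t + i * sp T) (t + i * sp T + j * sp T)) : ℝ) - j|

lemma dv_zero (T : ℝ) (i : ℤ) (t : ℝ) : dv T i 0 t = 0 := by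
  unfold dv
  have h : Ico (t + i * sp T) (t + i * sp T + ((0:ℕ) : ℝ) * sp T) = ∅ := by simp
  rw [h]
  have h0 : zc ∅ = 0 := by
    unfold zc
    simp
  rw [h0]
  simp

lemma dv_add {T : ℝ} (hs : 0 < sp T) (i : ℤ) (j k : ℕ) (t : ℝ) : dv T i (j + k) t ≤ dv T i j t + dv T (i + j) k t := by
  unfold dv
  have hj : (0:ℝ) ≤ j * sp T := by positivity
  have hk : (0:ℝ) ≤ k * sp T := by positivity
  have h1 : Ico (t + i * sp T) (t + i * sp T + ((j + k : ℕ) : ℝ) * sp T) =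
      Ico (t + i * sp T) (t + i * sp T + j * sp T + k * sp T) := by
    congr 1
    push_cast
    ring
  have h2 : t + ((i + j : ℤ) : ℝ) * sp T = t + i * sp T + j * sp T := by
    push_cast
    ring
  rw [h1, h2, zc_add (b := t + i * sp T + j * sp T) (by linarith) (by linarith)]
  push_cast
  have h3 := abs_add_le ((zc (Ico (t + i * sp T) (t + i * sp T + j * sp T)) : ℝ) - j)
    ((zc (Ico (t + i * sp T + j * sp T) (t + i * sp T + j * sp T + k * sp T)) : ℝ) - k)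
  refine le_trans (le_of_eq ?_) h3
  congr 1
  ring

/-- long windows are cut into short ones -/
lemma dv_cut {T : ℝ} (hs : 0 < sp T) {t V : ℝ} (hV : 0 ≤ V) {K : ℤ} {g : ℕ} (hg : 1 ≤ g)
    (h : ∀ i : ℤ, |i| ≤ K → ∀ r : ℕ, 1 ≤ r → r ≤ g → dv T i r t ≤ V) :
    ∀ j : ℕ, ∀ i : ℤ, |i| ≤ K → |i + j| ≤ K → dv T i j t ≤ ((j : ℝ) / g + 1) * V := by
  intro j
  induction j using Nat.strong_induction_on with
  | _ j ih =>
    intro i hi hij
    have hg0 : (0:ℝ) < g := by exact_mod_cast hg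
    rcases le_or_gt j g with hjg | hjg
    · rcases Nat.eq_zero_or_pos j with rfl | hj
      · rw [dv_zero]
        positivity
      · refine (h i hi j hj hjg).trans ?_
        have : 0 ≤ (j : ℝ) / g := by positivity
        nlinarith
    · obtain ⟨k, rfl⟩ : ∃ k, j = g + k := ⟨j - g, by omega⟩
      refine (dv_add hs i g k t).trans ?_
      have h1 := h i hi g hg le_rfl
      have h2 : |i + g| ≤ K := by
        rw [abs_le] at hi hij ⊢
        push_cast at hij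
        constructor
        · linarith [hi.1]
        · linarith [hij.2, (Int.natCast_nonneg k : (0:ℤ) ≤ (k:ℤ))]
      have h3 := ih k (by omega) (i + g) h2 (by
        rw [add_assoc]
        push_cast at hij
        exact hij)
      have h4 : ((g + k : ℕ) : ℝ) / g = 1 + (k : ℝ) / g := by
        push_cast
        field_simp
      rw [h4]
      linarith

lemma dev1 (h1 : Pool.Agent.Helper93.UX.TX1) (q : ℕ) : ∃ C d T₀ : ℝ, 0 < C ∧ 0 < d ∧ ∀ T : ℝ, T₀ ≤ T → 0 ≤ T → ∀ (i : ℤ) (j : ℕ), 1 ≤ j →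
    (j : ℝ) ≤ d * (Real.log T / Real.log (Real.log T)) → ∀ V : ℝ, 0 < V →
    volume {t : ℝ | t + i * sp T ∈ Icc (T / 2) (3 * T) ∧ V < dv T i j t} ≤
      ENNReal.ofReal (C * ((j : ℝ) / V ^ (2 * q)) * T) := by
  obtain ⟨C, d, T₀, hC, hd, h⟩ := h1 q
  obtain ⟨A, hA, hlog⟩ : ∃ A : ℝ, 0 < A ∧ ∀ c : ℝ, 1 ≤ c → Real.log (2 + c) ^ q ≤ A * c := by
    refine ⟨3 * (q.factorial : ℝ), by positivity, fun c hc => ?_⟩
    have e0 : 0 ≤ Real.log (2 + c) := Real.log_nonneg (by linarith)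
    have e1 := Real.pow_div_factorial_le_exp _ e0 q
    rw [Real.exp_log (by linarith), div_le_iff₀ (by positivity)] at e1
    refine e1.trans ?_
    have : (0:ℝ) < q.factorial := by positivity
    nlinarith
  refine ⟨C * A, d, T₀, by positivity, hd, fun T hT hT0 i j hj hjd V hV => ?_⟩
  have hj1 : (1:ℝ) ≤ j := by exact_mod_cast hj
  obtain ⟨hint, hmom⟩ := h T hT j hj1 hjd
  set f : ℝ → ℝ := fun t => |(zc (Ico t (t + j * sp T)) : ℝ) - j| ^ (2 * q) with hf
  have hm := markov (f := f) (fun u => by positivity) hint hmom (ε := V ^ (2 * q)) (by positivity)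
  have hsub : {t : ℝ | t + i * sp T ∈ Icc (T / 2) (3 * T) ∧ V < dv T i j t} ⊆
      (fun t => t + (i * sp T)) ⁻¹' ({u | V ^ (2 * q) ≤ f u} ∩ Icc (T / 2) (3 * T)) := by
    intro t ht
    refine ⟨?_, ht.1⟩
    show V ^ (2 * q) ≤ f (t + i * sp T)
    rw [hf]
    exact pow_le_pow_left₀ hV.le ht.2.le _
  refine (measure_mono hsub).trans ?_
  rw [measure_preimage_add_right]
  refine hm.trans (ENNReal.ofReal_le_ofReal ?_)
  rw [div_le_iff₀ (by positivity)]
  have e1 : C * A * ((j : ℝ) / V ^ (2 * q)) * T * V ^ (2 * q) = C * (A * j) * T := by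
    have : V ^ (2 * q) ≠ 0 := by positivity
    field_simp
  rw [e1]
  exact mul_le_mul_of_nonneg_right (mul_le_mul_of_nonneg_left (hlog j hj1) hC.le) hT0

/-- the sandwich, to the right -/
lemma sand_right {T : ℝ} (hs : 0 < sp T) {t u x : ℝ} (htu : |u - t| ≤ sp T) (hx : 3 ≤ x) {D : ℝ}
    (h1 : dv T (-1) (⌈x⌉₊ + 2) t ≤ D) (h2 : dv T 1 (⌊x⌋₊ - 2) t ≤ D) :
    |(zc (Ico u (u + x * sp T)) : ℝ) - x| ≤ D + 3 := by
  have hu := abs_le.1 htu
  have hc1 : x ≤ ⌈x⌉₊ := Nat.le_ceil x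
  have hc2 : (⌈x⌉₊ : ℝ) < x + 1 := Nat.ceil_lt_add_one (by linarith)
  have hf1 : (⌊x⌋₊ : ℝ) ≤ x := Nat.floor_le (by linarith)
  have hf2 : x < ⌊x⌋₊ + 1 := Nat.lt_floor_add_one x
  have hf3 : 2 ≤ ⌊x⌋₊ := Nat.le_floor (by norm_num; linarith)
  have hcast : ((⌊x⌋₊ - 2 : ℕ) : ℝ) = (⌊x⌋₊ : ℝ) - 2 := by
    rw [Nat.cast_sub hf3]; norm_num
  unfold dv at h1 h2
  rw [hcast] at h2
  push_cast at h1 h2
  have k1 : (zc (Ico u (u + x * sp T)) : ℝ) ≤ (zc (Ico (t + -1 * sp T) (t + -1 * sp T + ((⌈x⌉₊ : ℝ) + 2) * sp T)) : ℝ) := by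
    have : zc (Ico u (u + x * sp T)) ≤ zc (Ico (t + -1 * sp T) (t + -1 * sp T + ((⌈x⌉₊ : ℝ) + 2) * sp T)) := by
      refine zc_mono (fun y hy => ⟨by linarith [hy.1], lt_of_lt_of_le hy.2 ?_⟩) Ico_subset_Icc_self
      nlinarith
    exact_mod_cast this
  have k2 : (zc (Ico (t + 1 * sp T) (t + 1 * sp T + ((⌊x⌋₊ : ℝ) - 2) * sp T)) : ℝ) ≤ (zc (Ico u (u + x * sp T)) : ℝ) := by
    have : zc (Ico (t + 1 * sp T) (t + 1 * sp T + ((⌊x⌋₊ : ℝ) - 2) * sp T)) ≤ zc (Ico u (u + x * sp T)) := by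
      refine zc_mono (fun y hy => ⟨by linarith [hy.1], lt_of_lt_of_le hy.2 ?_⟩) Ico_subset_Icc_self
      nlinarith
    exact_mod_cast this
  have g1 := abs_le.1 h1
  have g2 := abs_le.1 h2
  rw [abs_le]
  constructor <;> linarith [g1.1, g1.2, g2.1, g2.2]

/-- the sandwich, to the left -/
lemma sand_left {T : ℝ} (hs : 0 < sp T) {t u x : ℝ} (htu : |u - t| ≤ sp T) (hx : 3 ≤ x) {D : ℝ}
    (h1 : dv T (-(⌈x⌉₊ : ℤ) - 1) (⌈x⌉₊ + 2) t ≤ D) (h2 : dv T (1 - (⌊x⌋₊ : ℤ)) (⌊x⌋₊ - 2) t ≤ D) :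
    |(zc (Ico (u - x * sp T) u) : ℝ) - x| ≤ D + 3 := by
  have hu := abs_le.1 htu
  have hc1 : x ≤ ⌈x⌉₊ := Nat.le_ceil x
  have hc2 : (⌈x⌉₊ : ℝ) < x + 1 := Nat.ceil_lt_add_one (by linarith)
  have hf1 : (⌊x⌋₊ : ℝ) ≤ x := Nat.floor_le (by linarith)
  have hf2 : x < ⌊x⌋₊ + 1 := Nat.lt_floor_add_one x
  have hf3 : 2 ≤ ⌊x⌋₊ := Nat.le_floor (by norm_num; linarith)
  have hcast : ((⌊x⌋₊ - 2 : ℕ) : ℝ) = (⌊x⌋₊ : ℝ) - 2 := by
    rw [Nat.cast_sub hf3]; norm_num
  unfold dv at h1 h2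
  rw [hcast] at h2
  push_cast at h1 h2
  have k1 : (zc (Ico (u - x * sp T) u) : ℝ) ≤ (zc (Ico (t + (-(⌈x⌉₊ : ℝ) - 1) * sp T) (t + (-(⌈x⌉₊ : ℝ) - 1) * sp T + ((⌈x⌉₊ : ℝ) + 2) * sp T)) : ℝ) := by
    have : zc (Ico (u - x * sp T) u) ≤ zc (Ico (t + (-(⌈x⌉₊ : ℝ) - 1) * sp T) (t + (-(⌈x⌉₊ : ℝ) - 1) * sp T + ((⌈x⌉₊ : ℝ) + 2) * sp T)) := by
      refine zc_mono (fun y hy => ⟨le_trans ?_ hy.1, lt_of_lt_of_le hy.2 ?_⟩) Ico_subset_Icc_self
      · nlinarith
      · linarith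
    exact_mod_cast this
  have k2 : (zc (Ico (t + (1 - (⌊x⌋₊ : ℝ)) * sp T) (t + (1 - (⌊x⌋₊ : ℝ)) * sp T + ((⌊x⌋₊ : ℝ) - 2) * sp T)) : ℝ) ≤ (zc (Ico (u - x * sp T) u) : ℝ) := by
    have : zc (Ico (t + (1 - (⌊x⌋₊ : ℝ)) * sp T) (t + (1 - (⌊x⌋₊ : ℝ)) * sp T + ((⌊x⌋₊ : ℝ) - 2) * sp T)) ≤ zc (Ico (u - x * sp T) u) := by
      refine zc_mono (fun y hy => ⟨le_trans ?_ hy.1, lt_of_lt_of_le hy.2 ?_⟩) Ico_subset_Icc_self
      · nlinarith
      · linarith
    exact_mod_cast this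
  have g1 := abs_le.1 h1
  have g2 := abs_le.1 h2
  rw [abs_le]
  constructor <;> linarith [g1.1, g1.2, g2.1, g2.2]

lemma fam_a {C T B : ℝ} (hC : 0 < C) (hT : 0 ≤ T) (m g : ℕ) (hm : 1 ≤ m) (hB : 0 < B) (F : ℕ → Finset ℤ) (hF : ∀ j, (F j).card ≤ 4)
    (S : ℤ → ℕ → Set ℝ)
    (h : ∀ j, m ≤ j → j ≤ g → ∀ i, volume (S i j) ≤ ENNReal.ofReal (C * (j : ℝ) ^ (-(B + 2)) * T)) :
    volume (⋃ j ∈ Finset.Icc m g, ⋃ i ∈ F j, S i j) ≤ ENNReal.ofReal (8 * C * (m : ℝ) ^ (-B) * T) := by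
  have hm1 : (1:ℝ) ≤ m := by exact_mod_cast hm
  have h1 : ∀ j ∈ Finset.Icc m g, volume (⋃ i ∈ F j, S i j) ≤ ENNReal.ofReal (4 * C * (m : ℝ) ^ (-B) * T * ((j : ℝ) ^ 2)⁻¹) := by
    intro j hj
    rw [Finset.mem_Icc] at hj
    have hj1 : (m : ℝ) ≤ j := by exact_mod_cast hj.1
    calc volume (⋃ i ∈ F j, S i j) ≤ ∑ i ∈ F j, volume (S i j) := measure_biUnion_finset_le _ _
      _ ≤ ∑ i ∈ F j, ENNReal.ofReal (C * (m : ℝ) ^ (-B) * T * ((j : ℝ) ^ 2)⁻¹) := by
        refine Finset.sum_le_sum fun i _ => (h j hj.1 hj.2 i).trans (ENNReal.ofReal_le_ofReal ?_)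
        have e1 : (j : ℝ) ^ (-(B + 2)) = (j : ℝ) ^ (-B) * ((j : ℝ) ^ 2)⁻¹ := by
          rw [neg_add, Real.rpow_add (by linarith), Real.rpow_neg (by linarith) 2]
          norm_num
        have e2 : (j : ℝ) ^ (-B) ≤ (m : ℝ) ^ (-B) := Real.rpow_le_rpow_of_nonpos (by linarith) hj1 (by linarith)
        rw [e1]
        have e3 : 0 ≤ ((j : ℝ) ^ 2)⁻¹ := by positivity
        have e4 : 0 ≤ C * T * ((j : ℝ) ^ 2)⁻¹ := by positivity
        nlinarith [mul_le_mul_of_nonneg_left e2 e4]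
      _ = (F j).card * ENNReal.ofReal (C * (m : ℝ) ^ (-B) * T * ((j : ℝ) ^ 2)⁻¹) := by
        rw [Finset.sum_const, nsmul_eq_mul]
      _ ≤ (4 : ENNReal) * ENNReal.ofReal (C * (m : ℝ) ^ (-B) * T * ((j : ℝ) ^ 2)⁻¹) := by
        gcongr
        exact_mod_cast hF j
      _ = _ := by
        rw [show (4 : ENNReal) = ENNReal.ofReal 4 by norm_num, ← ENNReal.ofReal_mul (by norm_num)]
        congr 1
        ring
  have h2 : ∑ j ∈ Finset.Icc m g, ((j : ℝ) ^ 2)⁻¹ ≤ 2 := by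
    have e := sum_Ioo_inv_sq_le (α := ℝ) (m - 1) (g + 1)
    have e1 : Finset.Ioo (m - 1) (g + 1) = Finset.Icc m g := by
      ext x
      simp only [Finset.mem_Ioo, Finset.mem_Icc]
      omega
    rw [e1] at e
    refine e.trans ?_
    rw [div_le_iff₀ (by positivity)]
    have : (0:ℝ) ≤ ((m - 1 : ℕ) : ℝ) := by positivity
    linarith
  have hA : 0 ≤ 4 * C * (m : ℝ) ^ (-B) * T := by positivity
  calc volume (⋃ j ∈ Finset.Icc m g, ⋃ i ∈ F j, S i j) ≤ ∑ j ∈ Finset.Icc m g, volume (⋃ i ∈ F j, S i j) :=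
        measure_biUnion_finset_le _ _
    _ ≤ ∑ j ∈ Finset.Icc m g, ENNReal.ofReal (4 * C * (m : ℝ) ^ (-B) * T * ((j : ℝ) ^ 2)⁻¹) := Finset.sum_le_sum h1
    _ = ENNReal.ofReal (∑ j ∈ Finset.Icc m g, 4 * C * (m : ℝ) ^ (-B) * T * ((j : ℝ) ^ 2)⁻¹) := by
        rw [ENNReal.ofReal_sum_of_nonneg]
        intro j _
        positivity
    _ ≤ _ := by
        refine ENNReal.ofReal_le_ofReal ?_
        rw [← Finset.mul_sum]
        nlinarith [mul_le_mul_of_nonneg_left h2 hA]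

lemma fam_b {W : ℝ} (K g : ℕ) (S : ℤ → ℕ → Set ℝ)
    (h : ∀ j, 1 ≤ j → j ≤ g → ∀ i, volume (S i j) ≤ ENNReal.ofReal W) :
    volume (⋃ i ∈ Finset.Icc (-(K : ℤ)) K, ⋃ j ∈ Finset.Icc 1 g, S i j) ≤ ENNReal.ofReal ((2 * K + 1) * (g * W)) := by
  have h1 : ∀ i ∈ Finset.Icc (-(K : ℤ)) K, volume (⋃ j ∈ Finset.Icc 1 g, S i j) ≤ ENNReal.ofReal (g * W) := by
    intro i _
    calc volume (⋃ j ∈ Finset.Icc 1 g, S i j) ≤ ∑ j ∈ Finset.Icc 1 g, volume (S i j) := measure_biUnion_finset_le _ _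
      _ ≤ ∑ j ∈ Finset.Icc 1 g, ENNReal.ofReal W := by
        refine Finset.sum_le_sum fun j hj => ?_
        rw [Finset.mem_Icc] at hj
        exact h j hj.1 hj.2 i
      _ = _ := by
        rw [Finset.sum_const, nsmul_eq_mul, Nat.card_Icc, add_tsub_cancel_right, ENNReal.ofReal_mul (by positivity), ENNReal.ofReal_natCast]
  calc volume (⋃ i ∈ Finset.Icc (-(K : ℤ)) K, ⋃ j ∈ Finset.Icc 1 g, S i j) ≤
        ∑ i ∈ Finset.Icc (-(K : ℤ)) K, volume (⋃ j ∈ Finset.Icc 1 g, S i j) := measure_biUnion_finset_le _ _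
    _ ≤ ∑ i ∈ Finset.Icc (-(K : ℤ)) K, ENNReal.ofReal (g * W) := Finset.sum_le_sum h1
    _ = _ := by
      rw [Finset.sum_const, nsmul_eq_mul, Int.card_Icc]
      have e1 : ((K : ℤ) + 1 - -(K : ℤ)).toNat = 2 * K + 1 := by omega
      rw [e1, ENNReal.ofReal_mul (p := 2 * (K : ℝ) + 1) (by positivity)]
      congr 1
      rw [← ENNReal.ofReal_natCast]
      congr 1
      push_cast
      ring

/-- the eventual inequalities -/
lemma dev_ev {ε B d : ℝ} (hε : 0 < ε) (hd : 0 < d) : ∀ᶠ l : ℝ in atTop, 10 ≤ l ∧ 1 ≤ Real.log l ∧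
    1 ≤ d * (l / Real.log l) / 2 ∧ 8 * Real.log l ≤ d * l ^ (ε / 2) ∧ 128 * (l ^ 9 * l ^ B) ≤ Real.exp l := by
  have e1 : ∀ᶠ l : ℝ in atTop, 1 ≤ Real.log l := Real.tendsto_log_atTop.eventually_ge_atTop 1
  have e2 : ∀ᶠ l : ℝ in atTop, 8 * Real.log l ≤ d * l ^ (ε / 2) := by
    have h := (isLittleO_log_rpow_atTop (show (0:ℝ) < ε / 2 by linarith)).bound (show (0:ℝ) < d / 8 by positivity)
    filter_upwards [h, eventually_gt_atTop 1] with l h1 h2
    rw [Real.norm_eq_abs, Real.norm_eq_abs, abs_of_nonneg (Real.rpow_nonneg (by linarith) _)] at h1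
    have h3 := (le_abs_self _).trans h1
    linarith
  have e3 : ∀ᶠ l : ℝ in atTop, 1 ≤ d * (l / Real.log l) / 2 := by
    have h := (Real.isLittleO_log_id_atTop).bound (show (0:ℝ) < d / 2 by positivity)
    filter_upwards [h, e1, eventually_gt_atTop 1] with l h1 h2 h4
    rw [Real.norm_eq_abs, Real.norm_eq_abs, id, abs_of_nonneg (show (0:ℝ) ≤ l by linarith)] at h1
    have h3 := (le_abs_self _).trans h1
    rw [show d * (l / Real.log l) / 2 = (d / 2 * l) / Real.log l by ring, le_div_iff₀ (by linarith)]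
    linarith
  have e4 : ∀ᶠ l : ℝ in atTop, 128 * (l ^ 9 * l ^ B) ≤ Real.exp l := by
    have h := (isLittleO_rpow_exp_atTop (9 + B)).bound (show (0:ℝ) < 1 / 128 by norm_num)
    filter_upwards [h, eventually_gt_atTop 1] with l h1 h2
    rw [Real.norm_eq_abs, Real.norm_eq_abs, abs_of_nonneg (Real.rpow_nonneg (by linarith) _),
      abs_of_nonneg (Real.exp_nonneg _), Real.rpow_add (by linarith)] at h1
    have h3 : l ^ (9:ℝ) = l ^ 9 := by
      rw [← Real.rpow_natCast]; norm_num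
    rw [h3] at h1
    linarith
  filter_upwards [e1, e2, e3, e4, eventually_ge_atTop 10] with l h1 h2 h3 h4 h5
  exact ⟨h5, h1, h3, h2, h4⟩

/-- outside a small exceptional set all long windows near the point have nearly the mean number of zeros -/
theorem dev_thick (h1 : Pool.Agent.Helper93.UX.TX1) (ε B : ℝ) (hε : 0 < ε) (hB : 0 < B) : ∃ C T₀ : ℝ, 1 ≤ C ∧
    ∀ T L : ℝ, T₀ ≤ T → C ≤ L → L ≤ Real.log T →
    ∃ E : Set ℝ, volume E ≤ ENNReal.ofReal (C * L ^ (-B) * T) ∧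
    ∀ t ∈ Icc (T / 2) (3 * T), t ∉ E → ∀ u : ℝ, |u - t| ≤ sp T → ∀ x : ℝ, L ≤ x → x ≤ Real.log T ^ 10 →
      |(zc (Ico u (u + x * sp T)) : ℝ) - x| ≤ x ^ ε + x * Real.log T ^ (-(1 - ε)) ∧
      |(zc (Ico (u - x * sp T) u) : ℝ) - x| ≤ x ^ ε + x * Real.log T ^ (-(1 - ε)) := by
  obtain ⟨q, hq⟩ : ∃ q : ℕ, (B + 12) / ε ≤ q := exists_nat_ge _
  have hq' : B + 12 ≤ q * ε := by
    rw [div_le_iff₀ hε] at hq
    linarith
  obtain ⟨C, d, T₀, hC, hd, h⟩ := dev1 h1 q
  obtain ⟨l₀, hl₀⟩ := eventually_atTop.mp (dev_ev (B := B) hε hd)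
  -- x large
  obtain ⟨x₀, hx₀⟩ : ∃ x₀ : ℝ, ∀ x : ℝ, x₀ ≤ x → 3 + 2 ^ (ε / 2) * x ^ (ε / 2) ≤ x ^ ε := by
    obtain ⟨y₀, hy₀⟩ := eventually_atTop.mp ((tendsto_rpow_atTop (show (0:ℝ) < ε / 2 by linarith)).eventually_ge_atTop
      (3 + 2 ^ (ε / 2)))
    refine ⟨max y₀ 1, fun x hx => ?_⟩
    have hx1 : 1 ≤ x := (le_max_right _ _).trans hx
    have e1 := hy₀ x ((le_max_left _ _).trans hx)
    have e2 : x ^ ε = x ^ (ε / 2) * x ^ (ε / 2) := by
      rw [← Real.rpow_add (by linarith)]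
      congr 1
      ring
    have e3 : 1 ≤ x ^ (ε / 2) := Real.one_le_rpow hx1 (by linarith)
    rw [e2]
    have e4 : (0:ℝ) < 2 ^ (ε / 2) := by positivity
    nlinarith
  set C₁ : ℝ := 8 * C * 2 ^ B + 17 * d ^ 2 * C + 1 with hC₁
  have hC₁1 : 1 ≤ C₁ := by
    have : 0 ≤ 8 * C * 2 ^ B + 17 * d ^ 2 * C := by positivity
    linarith
  refine ⟨max C₁ (max x₀ 8), max (max T₀ 3) (Real.exp l₀), hC₁1.trans (le_max_left _ _), fun T L hT hCL hLT => ?_⟩
  have hT0 : T₀ ≤ T := (le_max_left _ _).trans ((le_max_left _ _).trans hT)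
  have hT3 : (3:ℝ) ≤ T := (le_max_right _ _).trans ((le_max_left _ _).trans hT)
  have hTl : l₀ ≤ Real.log T := by
    rw [Real.le_log_iff_exp_le (by linarith)]
    exact (le_max_right _ _).trans hT
  have hL8 : 8 ≤ L := (le_max_right _ _).trans ((le_max_right _ _).trans hCL)
  have hLx : x₀ ≤ L := (le_max_left _ _).trans ((le_max_right _ _).trans hCL)
  obtain ⟨l, hl⟩ : ∃ l, l = Real.log T := ⟨_, rfl⟩
  rw [← hl] at hTl hLT
  obtain ⟨k1, k2, k3, k4, k5⟩ := hl₀ l hTl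
  have hexp : Real.exp l = T := by rw [hl, Real.exp_log (by linarith)]
  have hl0 : 0 < l := by linarith
  have hs : sp T = 2 * Real.pi / l := by rw [hl]; rfl
  have hs0 : 0 < sp T := by
    rw [hs]
    have := Real.pi_pos
    positivity
  rw [← hl]
  have hh : ∀ (i : ℤ) (j : ℕ), 1 ≤ j → (j : ℝ) ≤ d * (l / Real.log l) → ∀ V : ℝ, 0 < V →
      volume {t : ℝ | t + i * sp T ∈ Icc (T / 2) (3 * T) ∧ V < dv T i j t} ≤
        ENNReal.ofReal (C * ((j : ℝ) / V ^ (2 * q)) * T) := by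
    intro i j hj hjd V hV
    rw [hl] at hjd
    exact h T hT0 (by linarith) i j hj hjd V hV
  -- the parameters
  set g : ℕ := ⌊d * (l / Real.log l)⌋₊ with hg
  have hG0 : 0 ≤ d * (l / Real.log l) := by linarith
  have hg1 : (g : ℝ) ≤ d * (l / Real.log l) := Nat.floor_le hG0
  have hg2 : d * (l / Real.log l) / 2 ≤ g := by
    have := Nat.lt_floor_add_one (d * (l / Real.log l))
    rw [← hg] at this
    linarith
  have hg3 : (1:ℝ) ≤ g := k3.trans hg2
  have hg4 : 1 ≤ g := by exact_mod_cast hg3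
  have hg5 : (g : ℝ) ≤ d * l := by
    refine hg1.trans (mul_le_mul_of_nonneg_left ?_ hd.le)
    exact div_le_self hl0.le k2
  set V : ℝ := l ^ (ε / 2) with hV
  have hV0 : 0 < V := Real.rpow_pos_of_pos hl0 _
  set K : ℕ := ⌈l ^ 10⌉₊ + 5 with hK
  have hl10 : (10:ℝ) ^ 10 ≤ l ^ 10 := pow_le_pow_left₀ (by norm_num) k1 10
  have hK1 : (K : ℝ) ≤ 8 * l ^ 10 := by
    have e1 := Nat.ceil_lt_add_one (show 0 ≤ l ^ 10 by positivity)
    rw [hK]
    push_cast
    linarith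
  set m : ℕ := ⌈L / 2⌉₊ with hm
  have hm1 : L / 2 ≤ m := Nat.le_ceil _
  have hm2 : (m : ℝ) < L / 2 + 1 := Nat.ceil_lt_add_one (by linarith)
  have hm3 : 1 ≤ m := by
    have : (1:ℝ) ≤ m := by linarith
    exact_mod_cast this
  set F : ℕ → Finset ℤ := fun j => {-1, 1, 1 - (j : ℤ), -1 - (j : ℤ)} with hF
  have hFc : ∀ j, (F j).card ≤ 4 := fun j => Finset.card_le_four
  set SA : ℤ → ℕ → Set ℝ := fun i j => {t : ℝ | t + i * sp T ∈ Icc (T / 2) (3 * T) ∧ (j : ℝ) ^ (ε / 2) < dv T i j t} with hSA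
  set SB : ℤ → ℕ → Set ℝ := fun i j => {t : ℝ | t + i * sp T ∈ Icc (T / 2) (3 * T) ∧ V < dv T i j t} with hSB
  have hA := fam_a hC (show (0:ℝ) ≤ T by linarith) m g hm3 hB F hFc SA (by
    intro j hj1 hj2 i
    have hj3 : (j : ℝ) ≤ g := by exact_mod_cast hj2
    have hj4 : 1 ≤ j := hm3.trans hj1
    have hj5 : (1:ℝ) ≤ j := by exact_mod_cast hj4
    refine (hh i j hj4 (hj3.trans hg1) ((j : ℝ) ^ (ε / 2)) (Real.rpow_pos_of_pos (by linarith) _)).trans (ENNReal.ofReal_le_ofReal ?_)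
    refine mul_le_mul_of_nonneg_right (mul_le_mul_of_nonneg_left ?_ hC.le) (by linarith)
    have e1 : ((j : ℝ) ^ (ε / 2)) ^ (2 * q) = (j : ℝ) ^ (q * ε) := by
      rw [← Real.rpow_natCast, ← Real.rpow_mul (by linarith)]
      congr 1
      push_cast
      ring
    rw [e1, div_eq_mul_inv, ← Real.rpow_neg (by linarith)]
    nth_rewrite 1 [← Real.rpow_one (j : ℝ)]
    rw [← Real.rpow_add (by linarith)]
    exact Real.rpow_le_rpow_of_exponent_le hj5 (by linarith))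
  have hBm := fam_b (W := C * ((g : ℝ) / V ^ (2 * q)) * T) K g SB (by
    intro j hj1 hj2 i
    have hj3 : (j : ℝ) ≤ g := by exact_mod_cast hj2
    refine (hh i j hj1 (hj3.trans hg1) V hV0).trans (ENNReal.ofReal_le_ofReal ?_)
    refine mul_le_mul_of_nonneg_right (mul_le_mul_of_nonneg_left ?_ hC.le) (by linarith)
    exact div_le_div_of_nonneg_right hj3 (by positivity))
  set E : Set ℝ := (Icc (T / 2) (T / 2 + K * sp T) ∪ Icc (3 * T - K * sp T) (3 * T)) ∪
    ((⋃ j ∈ Finset.Icc m g, ⋃ i ∈ F j, SA i j) ∪ (⋃ i ∈ Finset.Icc (-(K : ℤ)) K, ⋃ j ∈ Finset.Icc 1 g, SB i j)) with hE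
  refine ⟨E, ?_, ?_⟩
  · -- the measure
    have hLB : l ^ (-B) ≤ L ^ (-B) := Real.rpow_le_rpow_of_nonpos (by linarith) hLT (by linarith)
    have hLB0 : 0 < L ^ (-B) := Real.rpow_pos_of_pos (by linarith) _
    have m1 : volume (Icc (T / 2) (T / 2 + K * sp T) ∪ Icc (3 * T - K * sp T) (3 * T)) ≤ ENNReal.ofReal (L ^ (-B) * T) := by
      refine (measure_union_le _ _).trans ?_
      rw [Real.volume_Icc, Real.volume_Icc, ← ENNReal.ofReal_add (by ring_nf; positivity) (by ring_nf; positivity)]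
      refine ENNReal.ofReal_le_ofReal ?_
      have e1 : T / 2 + K * sp T - T / 2 + (3 * T - (3 * T - K * sp T)) = 2 * (K * sp T) := by ring
      rw [e1, hs]
      have e2 : 2 * ((K : ℝ) * (2 * Real.pi / l)) ≤ 2 * (8 * l ^ 10 * (2 * 4 / l)) := by
        have := Real.pi_le_four
        gcongr
      have e3 : 2 * (8 * l ^ 10 * (2 * 4 / l)) = 128 * l ^ 9 := by
        field_simp
        ring
      have e4 : 128 * l ^ 9 ≤ l ^ (-B) * T := by
        rw [Real.rpow_neg hl0.le, inv_mul_eq_div, le_div_iff₀ (Real.rpow_pos_of_pos hl0 _), ← hexp]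
        linarith
      have e5 : l ^ (-B) * T ≤ L ^ (-B) * T := mul_le_mul_of_nonneg_right hLB (by linarith)
      linarith
    have m2 : volume (⋃ j ∈ Finset.Icc m g, ⋃ i ∈ F j, SA i j) ≤ ENNReal.ofReal (8 * C * 2 ^ B * L ^ (-B) * T) := by
      refine hA.trans (ENNReal.ofReal_le_ofReal ?_)
      have e1 : (m : ℝ) ^ (-B) ≤ (L / 2) ^ (-B) := Real.rpow_le_rpow_of_nonpos (by linarith) hm1 (by linarith)
      have e2 : (L / 2) ^ (-B) = 2 ^ B * L ^ (-B) := by
        rw [Real.div_rpow (by linarith) (by norm_num), Real.rpow_neg (show (0:ℝ) ≤ 2 by norm_num), div_inv_eq_mul]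
        ring
      rw [e2] at e1
      have e3 : 0 ≤ 8 * C * T := by positivity
      nlinarith [mul_le_mul_of_nonneg_left e1 e3]
    have m3 : volume (⋃ i ∈ Finset.Icc (-(K : ℤ)) K, ⋃ j ∈ Finset.Icc 1 g, SB i j) ≤ ENNReal.ofReal (17 * d ^ 2 * C * L ^ (-B) * T) := by
      refine hBm.trans (ENNReal.ofReal_le_ofReal ?_)
      have e1 : V ^ (2 * q) = l ^ (q * ε) := by
        rw [hV, ← Real.rpow_natCast, ← Real.rpow_mul hl0.le]
        congr 1
        push_cast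
        ring
      have e2 : l ^ (B + 12) ≤ V ^ (2 * q) := by
        rw [e1]
        exact Real.rpow_le_rpow_of_exponent_le (by linarith) hq'
      have e3 : l ^ (B + 12) = l ^ B * l ^ 12 := by
        rw [Real.rpow_add hl0]
        congr 1
        rw [← Real.rpow_natCast]
        norm_num
      have e4 : (0:ℝ) < l ^ B := Real.rpow_pos_of_pos hl0 _
      have e5 : (g : ℝ) / V ^ (2 * q) ≤ (d * l) / (l ^ B * l ^ 12) := by
        rw [← e3]
        gcongr
      have e6 : 2 * (K : ℝ) + 1 ≤ 17 * l ^ 10 := by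
        linarith
      calc (2 * (K : ℝ) + 1) * (g * (C * ((g : ℝ) / V ^ (2 * q)) * T)) ≤
            (17 * l ^ 10) * ((d * l) * (C * ((d * l) / (l ^ B * l ^ 12)) * T)) := by
              gcongr
        _ = 17 * d ^ 2 * C * l ^ (-B) * T := by
              rw [Real.rpow_neg hl0.le]
              field_simp
        _ ≤ 17 * d ^ 2 * C * L ^ (-B) * T := by
              gcongr
    have m4 : volume E ≤ ENNReal.ofReal (L ^ (-B) * T) + (ENNReal.ofReal (8 * C * 2 ^ B * L ^ (-B) * T) +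
        ENNReal.ofReal (17 * d ^ 2 * C * L ^ (-B) * T)) :=
      (measure_union_le _ _).trans (add_le_add m1 ((measure_union_le _ _).trans (add_le_add m2 m3)))
    refine m4.trans ?_
    rw [← ENNReal.ofReal_add (by positivity) (by positivity), ← ENNReal.ofReal_add (by positivity) (by positivity)]
    refine ENNReal.ofReal_le_ofReal ?_
    have e1 : L ^ (-B) * T + (8 * C * 2 ^ B * L ^ (-B) * T + 17 * d ^ 2 * C * L ^ (-B) * T) = C₁ * (L ^ (-B) * T) := by
      rw [hC₁]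
      ring
    rw [e1]
    have e2 : C₁ ≤ max C₁ (max x₀ 8) := le_max_left _ _
    have e3 : 0 ≤ L ^ (-B) * T := by positivity
    nlinarith [mul_le_mul_of_nonneg_right e2 e3]
  · -- the deviations
    intro t ht htE u hu x hLx' hxT
    rw [hE, mem_union, mem_union, mem_union] at htE
    push Not at htE
    obtain ⟨⟨n1, n2⟩, n3, n4⟩ := htE
    have hx8 : 8 ≤ x := hL8.trans hLx'
    -- all starting points are in the interval
    have hin : ∀ i : ℤ, |i| ≤ (K : ℤ) → t + i * sp T ∈ Icc (T / 2) (3 * T) := by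
      intro i hi
      have a1 : T / 2 + K * sp T < t := by
        by_contra hc
        push Not at hc
        exact n1 ⟨ht.1, hc⟩
      have a2 : t < 3 * T - K * sp T := by
        by_contra hc
        push Not at hc
        exact n2 ⟨hc, ht.2⟩
      have a3 : |(i : ℝ)| ≤ K := by exact_mod_cast hi
      have a4 := abs_le.1 a3
      constructor <;> nlinarith [a4.1, a4.2]
    have hVb : ∀ i : ℤ, |i| ≤ (K : ℤ) → ∀ r : ℕ, 1 ≤ r → r ≤ g → dv T i r t ≤ V := by
      intro i hi r hr1 hr2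
      by_contra hc
      push Not at hc
      refine n4 ?_
      rw [mem_iUnion₂]
      refine ⟨i, Finset.mem_Icc.2 (abs_le.1 hi), ?_⟩
      rw [mem_iUnion₂]
      exact ⟨r, Finset.mem_Icc.2 ⟨hr1, hr2⟩, hin i hi, hc⟩
    have hcut := dv_cut hs0 hV0.le hg4 hVb
    have hceil : ⌈x⌉₊ ≤ ⌈l ^ 10⌉₊ := Nat.ceil_le_ceil hxT
    have hfloor : ⌊x⌋₊ ≤ ⌈x⌉₊ := Nat.floor_le_ceil x
    have hf3 : 8 ≤ ⌊x⌋₊ := Nat.le_floor (by exact_mod_cast hx8)
    have hc2 : (⌈x⌉₊ : ℝ) < x + 1 := Nat.ceil_lt_add_one (by linarith)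
    have hf2 : x < ⌊x⌋₊ + 1 := Nat.lt_floor_add_one x
    -- the bound for the deviations
    have hDb : ∀ j : ℕ, (j : ℝ) ≤ x + 3 → m ≤ j → ∀ i ∈ F j, |i| ≤ (K : ℤ) → |i + j| ≤ (K : ℤ) →
        dv T i j t ≤ (x + 3) ^ (ε / 2) + 2 * ((x + 3) / g) * V := by
      intro j hj hmj i hi hi1 hi2
      have p1 : 0 ≤ (x + 3) ^ (ε / 2) := Real.rpow_nonneg (by linarith) _
      have p2 : 0 ≤ 2 * ((x + 3) / g) * V := by positivity
      rcases le_or_gt j g with hjg | hjg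
      · have b1 : dv T i j t ≤ (j : ℝ) ^ (ε / 2) := by
          by_contra hc
          push Not at hc
          refine n3 ?_
          rw [mem_iUnion₂]
          refine ⟨j, Finset.mem_Icc.2 ⟨hmj, hjg⟩, ?_⟩
          rw [mem_iUnion₂]
          exact ⟨i, hi, hin i hi1, hc⟩
        have b2 : (j : ℝ) ^ (ε / 2) ≤ (x + 3) ^ (ε / 2) := Real.rpow_le_rpow (by positivity) hj (by linarith)
        linarith
      · have b1 := hcut j i hi1 hi2
        have hg0 : (0:ℝ) < g := by linarith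
        have b2 : 1 ≤ (j : ℝ) / g := by
          rw [le_div_iff₀ hg0, one_mul]
          exact_mod_cast hjg.le
        have b3 : (j : ℝ) / g ≤ (x + 3) / g := div_le_div_of_nonneg_right hj hg0.le
        have b4 : ((j : ℝ) / g + 1) * V ≤ 2 * ((x + 3) / g) * V := mul_le_mul_of_nonneg_right (by linarith) hV0.le
        linarith
    have hD3 : (x + 3) ^ (ε / 2) + 2 * ((x + 3) / g) * V + 3 ≤ x ^ ε + x * l ^ (-(1 - ε)) := by
      have b1 : (x + 3) ^ (ε / 2) ≤ 2 ^ (ε / 2) * x ^ (ε / 2) := by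
        rw [← Real.mul_rpow (by norm_num) (by linarith)]
        exact Real.rpow_le_rpow (by linarith) (by linarith) (by linarith)
      have b2 := hx₀ x (hLx.trans hLx')
      have b3 : 2 * ((x + 3) / g) * V ≤ x * l ^ (-(1 - ε)) := by
        have hg0 : (0:ℝ) < g := by linarith
        have c1 : 2 * ((x + 3) / g) * V ≤ x * (4 * V / g) := by
          have : 2 * (x + 3) ≤ 4 * x := by linarith
          calc 2 * ((x + 3) / g) * V = (2 * (x + 3)) * (V / g) := by ring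
            _ ≤ (4 * x) * (V / g) := mul_le_mul_of_nonneg_right this (by positivity)
            _ = x * (4 * V / g) := by ring
        have c2 : 4 * V / g ≤ l ^ (-(1 - ε)) := by
          have c3 : l ^ (-(1 - ε)) = V * V / l := by
            rw [hV, ← Real.rpow_add hl0]
            have : -(1 - ε) = (ε / 2 + ε / 2) - 1 := by ring
            rw [this, Real.rpow_sub_one hl0.ne']
          rw [c3, div_le_div_iff₀ hg0 hl0]
          have c4 : 4 * l ≤ V * g := by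
            have c5 : V * (d * (l / Real.log l) / 2) ≤ V * g := mul_le_mul_of_nonneg_left hg2 hV0.le
            refine le_trans ?_ c5
            have hll : 0 < Real.log l := by linarith
            rw [show V * (d * (l / Real.log l) / 2) = (d * V) * l / (2 * Real.log l) by field_simp, le_div_iff₀ (by positivity)]
            nlinarith
          nlinarith
        exact c1.trans (mul_le_mul_of_nonneg_left c2 (by linarith))
      linarith
    constructor
    · refine (sand_right hs0 hu (by linarith) (D := (x + 3) ^ (ε / 2) + 2 * ((x + 3) / g) * V) ?_ ?_).trans hD3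
      · refine hDb _ (by push_cast; linarith) ?_ _ (by simp [hF]) ?_ ?_
        · have : (m : ℝ) ≤ ((⌈x⌉₊ + 2 : ℕ) : ℝ) := by push_cast; linarith [Nat.le_ceil x]
          exact_mod_cast this
        · rw [abs_le]; constructor <;> omega
        · rw [abs_le]; constructor <;> omega
      · refine hDb _ ?_ ?_ _ (by simp [hF]) ?_ ?_
        · rw [Nat.cast_sub (by omega)]; push_cast; linarith [Nat.floor_le (show 0 ≤ x by linarith)]
        · have : (m : ℝ) ≤ ((⌊x⌋₊ - 2 : ℕ) : ℝ) := by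
            rw [Nat.cast_sub (by omega)]; push_cast; linarith
          exact_mod_cast this
        · rw [abs_le]; constructor <;> omega
        · rw [abs_le]; constructor <;> omega
    · refine (sand_left hs0 hu (by linarith) (D := (x + 3) ^ (ε / 2) + 2 * ((x + 3) / g) * V) ?_ ?_).trans hD3
      · refine hDb _ (by push_cast; linarith) ?_ _ ?_ ?_ ?_
        · have : (m : ℝ) ≤ ((⌈x⌉₊ + 2 : ℕ) : ℝ) := by push_cast; linarith [Nat.le_ceil x]
          exact_mod_cast this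
        · rw [hF]
          simp only [Finset.mem_insert, Finset.mem_singleton]
          right; right; left
          push_cast
          ring
        · rw [abs_le]; constructor <;> omega
        · rw [abs_le]; constructor <;> omega
      · refine hDb _ ?_ ?_ _ ?_ ?_ ?_
        · rw [Nat.cast_sub (by omega)]; push_cast; linarith [Nat.floor_le (show 0 ≤ x by linarith)]
        · have : (m : ℝ) ≤ ((⌊x⌋₊ - 2 : ℕ) : ℝ) := by
            rw [Nat.cast_sub (by omega)]; push_cast; linarith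
          exact_mod_cast this
        · rw [hF]
          simp only [Finset.mem_insert, Finset.mem_singleton]
          right; right; right
          omega
        · rw [abs_le]; constructor <;> omega
        · rw [abs_le]; constructor <;> omega

end Pool.Agent.Helper53.NS
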